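import Pool.Agent.T9h17.Pl.Spec

/-!
# One more, piece (G): a nonzero form which vanishes where the constant part of the left kernel is zero
-/

set_option autoImplicit false

namespace Pool.Agent.T9h67.PL

open MvPolynomial Pool.Agent.T9h17 Pool.Agent.T9h17.Bd Pool.Agent.T9h17.Pl

/-- The left kernel of a complex matrix, over every algebra. -/
theorem left_kernel {n : ℕ} (Λ : Matrix (Fin n) (Fin n) ℂ) :
    ∃ (Z : Type) (_ : Fintype Z) (_ : DecidableEq Z) (W : Matrix Z (Fin n) ℂ)
      (R : Matrix (Fin n) Z ℂ), Fintype.card Z ≤ n - Λ.rank ∧ W * Λ = 0 ∧ W * R = 1 ∧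
      ∀ (O : Type) [CommRing O] [IsDomain O] [Algebra ℂ O] (u : Fin n → O),
        Matrix.vecMul u (Λ.map (algebraMap ℂ O)) = 0 →
          ∃ v : Z → O, Matrix.vecMul v (W.map (algebraMap ℂ O)) = u := by
  classical
  obtain ⟨L, L', D, h⟩ := Matrix.Pivot.exists_list_transvec_mul_mul_list_transvec_eq_diagonal Λ
  set E := (L.map Matrix.TransvectionStruct.toMatrix).prod with hEdef
  set F := (L'.map Matrix.TransvectionStruct.toMatrix).prod with hFdef
  have hE : E.det = 1 := Matrix.TransvectionStruct.det_toMatrix_prod L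
  have hF : F.det = 1 := Matrix.TransvectionStruct.det_toMatrix_prod L'
  have hEu : IsUnit E.det := by rw [hE]; exact isUnit_one
  have hFu : IsUnit F.det := by rw [hF]; exact isUnit_one
  have hrank : Λ.rank = Fintype.card {i // D i ≠ 0} := by
    have h1 : (E * Λ * F).rank = Λ.rank := by
      rw [Matrix.rank_mul_eq_left_of_isUnit_det _ _ hFu,
        Matrix.rank_mul_eq_right_of_isUnit_det _ _ hEu]
    rw [← h1, h, Matrix.rank_diagonal]
  refine ⟨{i // D i = 0}, inferInstance, inferInstance, E.submatrix Subtype.val id,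
    E⁻¹.submatrix id Subtype.val, ?_, ?_, ?_, ?_⟩
  · have h1 := Fintype.card_subtype_compl (fun i => D i = 0)
    have h2 : Fintype.card {i // D i ≠ 0} = Fintype.card {i // ¬ D i = 0} := rfl
    have h3 := Fintype.card_subtype_le (fun i => D i = 0)
    rw [Fintype.card_fin] at h1 h3
    omega
  · have h1 : E.submatrix (Subtype.val : {i // D i = 0} → Fin n) id * Λ * F = 0 := by
      have h2 : E.submatrix (Subtype.val : {i // D i = 0} → Fin n) id * Λ * F =
          (E * Λ * F).submatrix Subtype.val id := by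
        ext i j
        simp [Matrix.mul_apply, Matrix.submatrix_apply]
      rw [h2, h]
      ext i j
      simp only [Matrix.submatrix_apply, id_eq, Matrix.diagonal_apply, Matrix.zero_apply]
      split_ifs
      · exact i.2
      · rfl
    have h3 := congrArg (fun M => M * F⁻¹) h1
    simp only [Matrix.zero_mul] at h3
    rwa [Matrix.mul_assoc, Matrix.mul_nonsing_inv _ hFu, Matrix.mul_one] at h3
  · have h2 : E.submatrix (Subtype.val : {i // D i = 0} → Fin n) id *
        E⁻¹.submatrix id (Subtype.val : {i // D i = 0} → Fin n) =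
          (E * E⁻¹).submatrix Subtype.val Subtype.val := by
      ext i j
      simp [Matrix.mul_apply, Matrix.submatrix_apply]
    rw [h2, Matrix.mul_nonsing_inv _ hEu, Matrix.submatrix_one _ Subtype.val_injective]
  · intro O _ _ _ u hu
    set φ := algebraMap ℂ O with hφ
    have hinj : Function.Injective φ := (algebraMap ℂ O).injective
    set w : Fin n → O := Matrix.vecMul u (E⁻¹.map φ) with hw
    have hwE : Matrix.vecMul w (E.map φ) = u := by
      rw [hw, Matrix.vecMul_vecMul, ← Matrix.map_mul, Matrix.nonsing_inv_mul _ hEu,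
        Matrix.map_one _ (map_zero φ) (map_one φ), Matrix.vecMul_one]
    have hwD : Matrix.vecMul w ((Matrix.diagonal D).map φ) = 0 := by
      rw [← h, Matrix.map_mul, Matrix.map_mul, ← Matrix.vecMul_vecMul, ← Matrix.vecMul_vecMul, hwE,
        hu, Matrix.zero_vecMul]
    have hw0 : ∀ i, D i ≠ 0 → w i = 0 := by
      intro i hi
      have h1 := congrFun hwD i
      rw [Matrix.diagonal_map (map_zero φ), Matrix.vecMul_diagonal] at h1
      rcases mul_eq_zero.mp h1 with h2 | h2
      · exact h2
      · exact absurd ((map_eq_zero_iff φ hinj).mp h2) hi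
    refine ⟨fun i => w i, ?_⟩
    rw [← hwE]
    funext j
    simp only [Matrix.vecMul, dotProduct, Matrix.map_apply, Matrix.submatrix_apply, id_eq]
    rw [← Fintype.sum_subtype_add_sum_subtype (fun i => D i = 0) (fun i => w i * φ (E i j)),
      Finset.sum_eq_zero (s := (Finset.univ : Finset {i // ¬ D i = 0})) (fun i _ => by
        rw [hw0 i i.2, zero_mul]), add_zero]

theorem stG : StG := by
  intro ι _ _ n Λ A hdet
  classical
  obtain ⟨Z, _, _, W, R, hZ, hWΛ, hWR, hker⟩ := left_kernel Λ
  obtain ⟨x₀, hx₀⟩ : ∃ x₀ : ι → ℂ, eval x₀ (affMat Λ A).det ≠ 0 := by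
    by_contra hcon
    push Not at hcon
    exact hdet (MvPolynomial.funext fun x => by rw [hcon, map_zero])
  have h1 : eval x₀ (affMat Λ A).det = (Λ + ∑ q, x₀ q • A q).det := by
    have := Oc.eval_det Λ A x₀
    rw [this]
    rfl
  set N₀ := Λ + ∑ q, x₀ q • A q with hN₀
  have hu : IsUnit N₀.det := isUnit_iff_ne_zero.mpr (h1 ▸ hx₀)
  set B : Matrix (Fin n) Z ℂ := N₀⁻¹ * R with hB
  have hone : ∑ q, x₀ q • (W * A q * B) = 1 := by
    have h2 : W * N₀ = W * ∑ q, x₀ q • A q := by
      rw [hN₀, Matrix.mul_add, hWΛ, zero_add]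
    have h3 : W * N₀ * B = 1 := by
      rw [hB, Matrix.mul_assoc, ← Matrix.mul_assoc N₀, Matrix.mul_nonsing_inv _ hu, Matrix.one_mul,
        hWR]
    rw [← h3, h2, Matrix.mul_sum, Matrix.sum_mul]
    refine Finset.sum_congr rfl fun q _ => ?_
    rw [Matrix.mul_smul, Matrix.smul_mul]
  set T : Matrix Z Z (MvPolynomial ι ℂ) :=
    Matrix.of fun i j => ∑ q, C ((W * A q * B) i j) * X q with hT
  have hae : ∀ (O : Type) [CommRing O] [Algebra ℂ O] (x : ι → O),
      aeval x T.det = (∑ q, x q • (W * A q * B).map (algebraMap ℂ O)).det := by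
    intro O _ _ x
    rw [AlgHom.map_det]
    congr 1
    ext i j
    simp only [AlgHom.mapMatrix_apply, Matrix.map_apply, hT, Matrix.of_apply, map_sum, map_mul,
      aeval_X, aeval_C, Matrix.sum_apply, Matrix.smul_apply, smul_eq_mul]
    exact Finset.sum_congr rfl fun q _ => mul_comm _ _
  refine ⟨T.det, ?_, ?_, ?_⟩
  · intro h0
    have h2 := hae ℂ x₀
    rw [h0, map_zero] at h2
    have h3 : ∑ q, x₀ q • (W * A q * B).map (algebraMap ℂ ℂ) = 1 := by
      rw [← hone]
      refine Finset.sum_congr rfl fun q _ => ?_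
      congr 1
    rw [h3, Matrix.det_one] at h2
    exact zero_ne_one h2
  · refine le_trans ?_ hZ
    rw [Matrix.det_apply]
    refine (totalDegree_finsetSum _ _).trans (Finset.sup_le fun σ _ => ?_)
    refine (totalDegree_smul_le _ _).trans ?_
    refine (totalDegree_finsetProd _ _).trans ?_
    refine (Finset.sum_le_sum (g := fun _ => 1) fun i _ => ?_).trans (by simp)
    rw [hT, Matrix.of_apply]
    refine (totalDegree_finsetSum _ _).trans (Finset.sup_le fun q _ => ?_)
    refine (totalDegree_mul _ _).trans ?_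
    rw [totalDegree_C, zero_add, totalDegree_X]
  · intro O _ _ _ x u hu0 huΛ huA
    obtain ⟨v, hv⟩ := hker O u huΛ
    rw [hae O x]
    apply Matrix.exists_vecMul_eq_zero_iff.mp
    refine ⟨v, ?_, ?_⟩
    · rintro rfl
      exact hu0 (by rw [← hv, Matrix.zero_vecMul])
    · have h2 : ∀ q, Matrix.vecMul v (x q • (W * A q * B).map (algebraMap ℂ O)) =
          Matrix.vecMul (x q • Matrix.vecMul u ((A q).map (algebraMap ℂ O)))
            (B.map (algebraMap ℂ O)) := by
        intro q
        rw [Matrix.vecMul_smul, Matrix.map_mul, Matrix.map_mul, ← Matrix.vecMul_vecMul,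
          ← Matrix.vecMul_vecMul, hv, Matrix.smul_vecMul]
      rw [Matrix.vecMul_sum, Finset.sum_congr rfl fun q _ => h2 q, ← Matrix.sum_vecMul, huA,
        Matrix.zero_vecMul]

end Pool.Agent.T9h67.PL
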