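import Pool.Agent.T9h67.PL.G

/-!
# One more, piece (G): the vanishing part for any columns
-/

set_option autoImplicit false

namespace Pool.Agent.T9h67.PL

open MvPolynomial

/-- If `u` is a combination of the rows of `W` over `O`, `u ≠ 0` and `∑ x_q u A_q = 0`, then every
minor `det (∑ X_q (W A_q)_(i, f j))` vanishes at `x`. -/
theorem vanish {ι Z : Type} [Fintype ι] [Fintype Z] [DecidableEq Z] {n : ℕ}
    (W : Matrix Z (Fin n) ℂ) (A : ι → Matrix (Fin n) (Fin n) ℂ) (f : Z → Fin n)
    (O : Type) [CommRing O] [IsDomain O] [Algebra ℂ O] (x : ι → O) (u : Fin n → O) (hu0 : u ≠ 0)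
    (hv : ∃ v : Z → O, Matrix.vecMul v (W.map (algebraMap ℂ O)) = u)
    (huA : ∑ r, x r • Matrix.vecMul u ((A r).map (algebraMap ℂ O)) = 0) :
    aeval x (Matrix.of fun i j => ∑ q, C ((W * A q) i (f j)) * X q :
      Matrix Z Z (MvPolynomial ι ℂ)).det = 0 := by
  classical
  obtain ⟨v, hv⟩ := hv
  have hae : aeval x (Matrix.of fun i j => ∑ q, C ((W * A q) i (f j)) * X q :
      Matrix Z Z (MvPolynomial ι ℂ)).det =
        ((∑ q, x q • (W * A q).map (algebraMap ℂ O)).submatrix id f).det := by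
    rw [AlgHom.map_det]
    congr 1
    ext i j
    simp only [AlgHom.mapMatrix_apply, Matrix.map_apply, Matrix.of_apply, map_sum, map_mul,
      aeval_X, aeval_C, Matrix.sum_apply, Matrix.smul_apply, smul_eq_mul, Matrix.submatrix_apply,
      id_eq]
    exact Finset.sum_congr rfl fun q _ => mul_comm _ _
  rw [hae]
  apply Matrix.exists_vecMul_eq_zero_iff.mp
  refine ⟨v, ?_, ?_⟩
  · rintro rfl
    exact hu0 (by rw [← hv, Matrix.zero_vecMul])
  · have h3 : Matrix.vecMul v (∑ q, x q • (W * A q).map (algebraMap ℂ O)) = 0 := by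
      have h2 : ∀ q, Matrix.vecMul v (x q • (W * A q).map (algebraMap ℂ O)) =
          x q • Matrix.vecMul u ((A q).map (algebraMap ℂ O)) := by
        intro q
        rw [Matrix.vecMul_smul, Matrix.map_mul, ← Matrix.vecMul_vecMul, hv]
      rw [Matrix.vecMul_sum, Finset.sum_congr rfl fun q _ => h2 q, huA]
    funext j
    have h4 := congrFun h3 (f j)
    simpa [Matrix.vecMul, dotProduct] using h4

end Pool.Agent.T9h67.PL
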